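import Mathlib

set_option autoImplicit false
open Polynomial

namespace Pool.Agent.H.MP_ef54ea_al

noncomputable section

abbrev R := QuadraticAlgebra ℂ[X] (X ^ 3 + 1) 0

def D (f : R) : R :=
  ⟨2 * (X ^ 3 + 1) * derivative f.im + 3 * X ^ 2 * f.im, 2 * derivative f.re⟩

lemma D_add (f g : R) : D (f + g) = D f + D g := by
  apply QuadraticAlgebra.ext <;> simp [D] <;> ring

lemma D_sub (f g : R) : D (f - g) = D f - D g := by
  apply QuadraticAlgebra.ext <;> simp [D] <;> ring

lemma D_smul (c : ℂ) (f : R) : D (c • f) = c • D f := by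
  apply QuadraticAlgebra.ext <;> simp [D, smul_eq_C_mul] <;> ring

lemma D_mul (f g : R) : D (f * g) = D f * g + f * D g := by
  apply QuadraticAlgebra.ext <;> simp [D, map_ofNat] <;> ring

lemma D_one : D 1 = 0 := by
  apply QuadraticAlgebra.ext <;> simp [D, QuadraticAlgebra.re_one, QuadraticAlgebra.im_one]

lemma D_zero : D 0 = 0 := by
  apply QuadraticAlgebra.ext <;> simp [D]

def br (f g : R) : R := f * D g - D f * g

lemma norm_ne (p q : ℂ[X]) (h : p ^ 2 = (X ^ 3 + 1) * q ^ 2) : p = 0 ∧ q = 0 := by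
  by_cases hq : q = 0
  · subst hq; simpa using h
  · exfalso
    have hc : (X ^ 3 + 1 : ℂ[X]).natDegree = 3 := by compute_degree!
    have hc0 : (X ^ 3 + 1 : ℂ[X]) ≠ 0 := by
      intro h0; rw [h0] at hc; simp at hc
    have := congrArg natDegree h
    rw [natDegree_mul hc0 (pow_ne_zero _ hq), natDegree_pow, natDegree_pow, hc] at this
    omega

lemma poly_unit (p : ℂ[X]) (hp : p ≠ 0) (h1 : p ∣ (X ^ 3 + 1) * derivative p)
    (h2 : p ∣ 2 * (X ^ 3 + 1) * derivative (derivative p) + 3 * X ^ 2 * derivative p) :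
    IsUnit p := by
  by_contra hu
  have hd : p.degree ≠ 0 := fun h => hu (isUnit_iff_degree_eq_zero.2 h)
  obtain ⟨α, hα⟩ := IsAlgClosed.exists_root p hd
  obtain ⟨u, hu1, hu2⟩ := exists_eq_pow_rootMultiplicity_mul_and_not_dvd p hp α
  have hpos : 0 < p.rootMultiplicity α := (rootMultiplicity_pos hp).2 hα
  obtain ⟨k, hk⟩ : ∃ k, p.rootMultiplicity α = k + 1 := ⟨_, (Nat.succ_pred_eq_of_pos hpos).symm⟩
  rw [hk] at hu1
  rw [dvd_iff_isRoot] at hu2
  have hT : (X - C α : ℂ[X]) ^ k ≠ 0 := pow_ne_zero _ (X_sub_C_ne_zero α)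
  set w : ℂ[X] := C ((k : ℂ) + 1) * u + (X - C α) * derivative u with hw
  have hp' : derivative p = (X - C α) ^ k * w := by
    rw [hu1, hw]; simp [derivative_pow_succ]; ring
  have hwα : w.eval α = ((k : ℂ) + 1) * u.eval α := by simp [hw]
  have hk1 : ((k : ℂ) + 1) ≠ 0 := by exact_mod_cast Nat.succ_ne_zero k
  have hwne : w.eval α ≠ 0 := by rw [hwα]; exact mul_ne_zero hk1 hu2
  have hc : α ^ 3 + 1 = 0 := by
    obtain ⟨z, hz⟩ := h1
    rw [hp', hu1] at hz
    have : (X ^ 3 + 1) * w = (X - C α) * u * z := by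
      apply mul_left_cancel₀ hT; linear_combination hz
    have := congrArg (eval α) this
    simp at this
    rcases this with h | h
    · exact h
    · exact absurd h hwne
  have hα0 : α ≠ 0 := by rintro rfl; simp at hc
  have hC : (C α : ℂ[X]) ^ 3 + 1 = 0 := by
    have := congrArg (C : ℂ → ℂ[X]) hc
    simpa using this
  have hp'' : (X - C α) * derivative (derivative p)
      = (X - C α) ^ k * (C (k : ℂ) * w + (X - C α) * derivative w) := by
    rw [hp']
    cases k with
    | zero => simp
    | succ k => simp [derivative_pow_succ]; ring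
  obtain ⟨z, hz⟩ := h2
  have key : 2 * (X ^ 2 + C α * X + C α ^ 2) * (C (k : ℂ) * w + (X - C α) * derivative w)
      + 3 * X ^ 2 * w = (X - C α) * u * z := by
    apply mul_left_cancel₀ hT
    have e : (X ^ 3 + 1 : ℂ[X]) = (X - C α) * (X ^ 2 + C α * X + C α ^ 2) := by
      linear_combination hC
    rw [e, hu1] at hz
    rw [← hu1] at hz
    nth_rewrite 3 [hu1] at hz
    linear_combination hz - 2 * (X ^ 2 + C α * X + C α ^ 2) * hp'' - 3 * X ^ 2 * hp'
  have := congrArg (eval α) key
  simp at this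
  have h3 : (3 * (2 * (k : ℂ) + 1)) * (α ^ 2 * w.eval α) = 0 := by linear_combination this
  have h4 : (3 * (2 * (k : ℂ) + 1)) ≠ 0 := by
    have : ((3 * (2 * k + 1) : ℕ) : ℂ) ≠ 0 := Nat.cast_ne_zero.2 (by omega)
    simpa using this
  exact mul_ne_zero h4 (mul_ne_zero (pow_ne_zero _ hα0) hwne) h3

lemma dsimple (J : Ideal R) (hD : ∀ x ∈ J, D x ∈ J) (f : R) (hf : f ∈ J) (hf0 : f ≠ 0) :
    (1 : R) ∈ J := by
  let J0 : Ideal ℂ[X] := J.comap (algebraMap ℂ[X] R)
  have hmem : ∀ p : ℂ[X], p ∈ J0 ↔ (⟨p, 0⟩ : R) ∈ J := fun p => Iff.rfl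
  have hN : f.re ^ 2 - (X ^ 3 + 1) * f.im ^ 2 ∈ J0 := by
    rw [hmem]
    have : (⟨f.re ^ 2 - (X ^ 3 + 1) * f.im ^ 2, 0⟩ : R) = ⟨f.re, -f.im⟩ * f := by
      apply QuadraticAlgebra.ext <;> simp <;> ring
    rw [this]; exact J.mul_mem_left _ hf
  have hN0 : f.re ^ 2 - (X ^ 3 + 1) * f.im ^ 2 ≠ 0 := by
    intro h
    obtain ⟨h1, h2⟩ := norm_ne _ _ (sub_eq_zero.1 h)
    exact hf0 (QuadraticAlgebra.ext h1 h2)
  set p := Submodule.IsPrincipal.generator J0 with hp
  have hdvd : ∀ q, q ∈ J0 ↔ p ∣ q := fun q => Submodule.IsPrincipal.mem_iff_generator_dvd J0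
  have hp0 : p ≠ 0 := by
    intro h
    have := (hdvd _).1 hN
    rw [h, zero_dvd_iff] at this
    exact hN0 this
  have hpJ : (⟨p, 0⟩ : R) ∈ J := (hmem p).1 ((hdvd p).2 dvd_rfl)
  have h1 : p ∣ (X ^ 3 + 1) * derivative p := by
    rw [← hdvd, hmem]
    have : (⟨(X ^ 3 + 1) * derivative p, 0⟩ : R) = ⟨0, C (1 / 2)⟩ * D ⟨p, 0⟩ := by
      have : (C (1 / 2 : ℂ) : ℂ[X]) * 2 = 1 := by
        rw [show (2 : ℂ[X]) = C 2 from rfl, ← C_mul]; norm_num
      apply QuadraticAlgebra.ext
      · simp only [D, QuadraticAlgebra.re_mul]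
        linear_combination (-(X ^ 3 + 1) * derivative p) * this
      · simp [D]
    rw [this]; exact J.mul_mem_left _ (hD _ hpJ)
  have h2 : p ∣ 2 * (X ^ 3 + 1) * derivative (derivative p) + 3 * X ^ 2 * derivative p := by
    rw [← hdvd, hmem]
    have : (⟨2 * (X ^ 3 + 1) * derivative (derivative p) + 3 * X ^ 2 * derivative p, 0⟩ : R)
        = ⟨C (1 / 2), 0⟩ * D (D ⟨p, 0⟩) := by
      have : (C (1 / 2 : ℂ) : ℂ[X]) * 2 = 1 := by
        rw [show (2 : ℂ[X]) = C 2 from rfl, ← C_mul]; norm_num
      apply QuadraticAlgebra.ext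
      · simp only [D, QuadraticAlgebra.re_mul, derivative_mul, derivative_ofNat]
        linear_combination
          (-(2 * (X ^ 3 + 1) * derivative (derivative p) + 3 * X ^ 2 * derivative p)) * this
      · simp [D]
    rw [this]; exact J.mul_mem_left _ (hD _ (hD _ hpJ))
  have := (hdvd 1).2 (poly_unit p hp0 h1 h2).dvd
  exact this

def L : Type := R

instance : AddCommGroup L := inferInstanceAs (AddCommGroup R)
instance : Module ℂ L := inferInstanceAs (Module ℂ R)

instance : LieRing L where
  bracket := br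
  add_lie := fun (x y z : R) => show br (x + y) z = br x z + br y z by
    simp only [br, D_add]; ring
  lie_add := fun (x y z : R) => show br x (y + z) = br x y + br x z by
    simp only [br, D_add]; ring
  lie_self := fun (x : R) => show br x x = 0 by
    simp only [br]; ring
  leibniz_lie := fun (x y z : R) => show br x (br y z) = br (br x y) z + br y (br x z) by
    simp only [br, D_sub, D_mul]; ring

instance : LieAlgebra ℂ L where
  lie_smul := fun (c : ℂ) (x y : R) => show br x (c • y) = c • br x y by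
    simp only [br, D_smul, smul_sub, mul_smul_comm]

lemma key_simple (I : Submodule ℂ R) (hI : ∀ g : R, ∀ f ∈ I, br g f ∈ I) (f0 : R) (hf0 : f0 ∈ I)
    (hne : f0 ≠ 0) : ∀ x, x ∈ I := by
  have ha : ∀ g h : R, ∀ f ∈ I, D g * D h * f ∈ I := by
    intro g h f hf
    have : D g * D h * f = (1 / 2 : ℂ) • (br g (br h f) - br (g * h) (br 1 f) - br (g * D h) f) := by
      have e : br g (br h f) - br (g * h) (br 1 f) - br (g * D h) f = (2 : ℂ) • (D g * D h * f) := by
        rw [two_smul]; simp only [br, D_sub, D_mul, D_one, D_zero, zero_mul, sub_zero, one_mul]; ring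
      rw [e, smul_smul]; norm_num
    rw [this]
    exact I.smul_mem _ (I.sub_mem (I.sub_mem (hI _ _ (hI _ _ hf)) (hI _ _ (hI _ _ hf))) (hI _ _ hf))
  have hb : ∀ m : R, (∀ f ∈ I, m * f ∈ I) → ∀ g : R, ∀ f ∈ I, g * D m * f ∈ I := by
    intro m hm g f hf
    have : g * D m * f = br g (m * f) - m * br g f := by
      simp only [br, D_mul]; ring
    rw [this]
    exact I.sub_mem (hI _ _ (hm _ hf)) (hm _ (hI _ _ hf))
  let J : Ideal R :=
    { carrier := {x | ∀ g : R, ∀ f ∈ I, g * x * f ∈ I}
      add_mem' := by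
        intro a b ha hb g f hf
        rw [mul_add, add_mul]; exact I.add_mem (ha g f hf) (hb g f hf)
      zero_mem' := by intro g f hf; simp
      smul_mem' := by
        intro c x hx g f hf
        rw [smul_eq_mul, ← mul_assoc]; exact hx _ f hf }
  have hJ : (1 : R) ∈ J := by
    apply dsimple J _ (D (D ⟨X, 0⟩ * D ⟨X, 0⟩))
    · exact hb _ (ha _ _)
    · intro h
      have := congrArg (fun z : R => eval 1 z.im) h
      simp [D] at this
      norm_num at this
    · intro x hx
      apply hb
      intro f hf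
      simpa using hx 1 f hf
  let I' : Ideal R :=
    { carrier := I
      add_mem' := I.add_mem
      zero_mem' := I.zero_mem
      smul_mem' := by
        intro c x hx
        simpa using hJ c x hx }
  have h1 : (1 : R) ∈ I' := by
    apply dsimple I' _ f0 hf0 hne
    intro x hx
    have := hI 1 x hx
    have e : br 1 x = D x := by simp [br, D_one]
    rw [e] at this
    exact this
  intro x
  simpa using hJ x 1 h1

lemma simple : LieAlgebra.IsSimple ℂ L where
  eq_bot_or_eq_top := by
    intro I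
    by_cases h : I = ⊥
    · exact Or.inl h
    · right
      obtain ⟨f, hf, hne⟩ : ∃ f ∈ I, f ≠ 0 := by
        by_contra hh
        push Not at hh
        exact h ((LieSubmodule.eq_bot_iff I).2 hh)
      rw [eq_top_iff]
      intro x _
      exact key_simple I.toSubmodule (fun g f hf => I.lie_mem (x := g) hf) f hf hne x
  non_abelian := by
    intro h
    have : br 1 ⟨X, 0⟩ = 0 := h.trivial (1 : R) (⟨X, 0⟩ : R)
    have := congrArg (fun z : R => eval 1 z.im) this
    rw [br, D_one] at this
    simp [D] at this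

def φ : R →ₗ[ℂ] ℂ[X] where
  toFun f := expand ℂ 2 f.re + expand ℂ 2 f.im * X ^ 3
  map_add' f g := by simp; ring
  map_smul' c f := by simp [smul_eq_C_mul]; ring

lemma φ_apply (f : R) : φ f = expand ℂ 2 f.re + expand ℂ 2 f.im * X ^ 3 := rfl

lemma coeff_even (f : R) (k : ℕ) : (φ f).coeff (2 * k) = f.re.coeff k := by
  rw [φ_apply, coeff_add, coeff_expand_mul' (by norm_num), coeff_mul_X_pow']
  split_ifs with h
  · rw [coeff_expand (by norm_num), if_neg (by omega)]; simp
  · simp

lemma coeff_odd (f : R) (k : ℕ) : (φ f).coeff (2 * k + 3) = f.im.coeff k := by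
  rw [φ_apply, coeff_add, coeff_mul_X_pow, coeff_expand_mul' (by norm_num),
    coeff_expand (by norm_num), if_neg (by omega)]
  simp

lemma φ_inj (f : R) (h : φ f = 0) : f = 0 := by
  apply QuadraticAlgebra.ext
  · ext k; rw [← coeff_even, h]; simp
  · ext k; rw [← coeff_odd, h]; simp

lemma re_le (f : R) : 2 * f.re.natDegree ≤ (φ f).natDegree := by
  by_cases h : f.re = 0
  · simp [h]
  · apply le_natDegree_of_ne_zero
    rw [coeff_even]; simpa using h

lemma im_le (f : R) : 2 * f.im.natDegree ≤ (φ f).natDegree := by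
  by_cases h : f.im = 0
  · simp [h]
  · have : 2 * f.im.natDegree + 3 ≤ (φ f).natDegree := by
      apply le_natDegree_of_ne_zero
      rw [coeff_odd]; simpa using h
    omega

lemma φ_br (f g : R) : φ (br f g) =
    (φ f * (X * derivative (φ g)) - (X * derivative (φ f)) * φ g) * X
      + (2 * (φ f * expand ℂ 2 (derivative g.im)) - 2 * (expand ℂ 2 (derivative f.im) * φ g)
      + 2 * (expand ℂ 2 f.im * expand ℂ 2 (derivative g.re))
      - 2 * (expand ℂ 2 (derivative f.re) * expand ℂ 2 g.im)) := by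
  simp [φ_apply, br, D, derivative_expand, map_ofNat]
  ring

lemma deg_br (f g : R) (hf : f ≠ 0) (hg : g ≠ 0) (hne : (φ f).natDegree ≠ (φ g).natDegree) :
    (φ f).natDegree + (φ g).natDegree + 1 ≤ (φ (br f g)).natDegree := by
  apply le_natDegree_of_ne_zero
  have hXd : ∀ p : ℂ[X], (X * derivative p).natDegree ≤ p.natDegree := by
    intro p
    by_cases h : p.natDegree = 0
    · rw [natDegree_eq_zero] at h
      obtain ⟨c, rfl⟩ := h
      simp
    · refine natDegree_mul_le.trans ?_
      have := natDegree_derivative_lt h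
      have := natDegree_X_le (R := ℂ)
      omega
  have hXc : ∀ p : ℂ[X], (X * derivative p).coeff p.natDegree = p.natDegree * p.leadingCoeff := by
    intro p
    unfold leadingCoeff
    cases p.natDegree with
    | zero => simp
    | succ n => rw [coeff_X_mul, coeff_derivative]; push_cast; ring
  have hE : ∀ p : ℂ[X], (expand ℂ 2 (derivative p)).natDegree ≤ 2 * p.natDegree := by
    intro p
    rw [natDegree_expand]
    have := natDegree_derivative_le p
    omega
  have hE' : ∀ p : ℂ[X], (expand ℂ 2 p).natDegree ≤ 2 * p.natDegree := by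
    intro p
    rw [natDegree_expand]; omega
  have h2 : ∀ p q : ℂ[X], p.natDegree ≤ (φ f).natDegree → q.natDegree ≤ (φ g).natDegree →
      (2 * (p * q)).coeff ((φ f).natDegree + (φ g).natDegree + 1) = 0 := by
    intro p q hp hq
    rw [two_mul, coeff_add, coeff_eq_zero_of_natDegree_lt, add_zero]
    have := natDegree_mul_le (p := p) (q := q)
    omega
  rw [φ_br, coeff_add, coeff_mul_X, coeff_sub, coeff_sub, coeff_add, coeff_sub,
    h2 _ _ le_rfl ((hE _).trans (im_le g)), h2 _ _ ((hE _).trans (im_le f)) le_rfl,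
    h2 _ _ ((hE' _).trans (im_le f)) ((hE _).trans (re_le g)),
    h2 _ _ ((hE _).trans (re_le f)) ((hE' _).trans (im_le g)),
    coeff_mul_add_eq_of_natDegree_le le_rfl (hXd _),
    coeff_mul_add_eq_of_natDegree_le (hXd _) le_rfl, hXc, hXc]
  have h1 : (φ f).leadingCoeff ≠ 0 := leadingCoeff_ne_zero.2 fun h => hf (φ_inj _ h)
  have h2 : (φ g).leadingCoeff ≠ 0 := leadingCoeff_ne_zero.2 fun h => hg (φ_inj _ h)
  have h3 : ((φ g).natDegree : ℂ) - (φ f).natDegree ≠ 0 := by
    rw [sub_ne_zero]; exact_mod_cast hne.symm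
  have := mul_ne_zero h3 (mul_ne_zero h1 h2)
  intro h
  apply this
  unfold leadingCoeff at h ⊢
  linear_combination h

lemma first_step (a v : R) (h : br a v ≠ 0) : (φ a).natDegree + 1 ≤ (φ (br a v)).natDegree := by
  have ha : a ≠ 0 := by
    rintro rfl
    apply h
    have := D_smul 0 0
    simp only [zero_smul] at this
    simp [br, this]
  have h1 : (φ a).leadingCoeff ≠ 0 := leadingCoeff_ne_zero.2 fun h => ha (φ_inj _ h)
  set c : ℂ := (φ v).coeff (φ a).natDegree / (φ a).leadingCoeff with hc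
  have e : br a (v - c • a) = br a v := by
    simp only [br, D_sub, D_smul, mul_sub, mul_smul_comm, mul_comm (D a) a]; ring
  have hv : v - c • a ≠ 0 := by
    intro h0
    rw [h0] at e
    apply h
    have := D_smul 0 0
    simp only [zero_smul] at this
    rw [← e]; simp [br, this]
  have hne : (φ a).natDegree ≠ (φ (v - c • a)).natDegree := by
    intro hh
    have h2 : (φ (v - c • a)).leadingCoeff ≠ 0 := leadingCoeff_ne_zero.2 fun h => hv (φ_inj _ h)
    apply h2
    unfold leadingCoeff
    rw [← hh, map_sub, map_smul, coeff_sub, coeff_smul, hc, smul_eq_mul, coeff_natDegree,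
      div_mul_cancel₀ _ h1, sub_self]
  have := deg_br a _ ha hv hne
  rw [e] at this
  omega

lemma pure (a : R) (V : Submodule ℂ R) (hV : FiniteDimensional ℂ V) (hinv : ∀ v ∈ V, br a v ∈ V) :
    ∀ v ∈ V, br a v = 0 := by
  intro v hv
  by_contra h
  have hfg : V.FG := Module.Finite.iff_fg.1 hV
  obtain ⟨s, hs⟩ := hfg
  have hb : ∀ x ∈ V, (φ x).natDegree ≤ s.sup fun x => (φ x).natDegree := by
    have : V ≤ (degreeLE ℂ ((s.sup fun x => (φ x).natDegree : ℕ) : WithBot ℕ)).comap φ := by
      rw [← hs, Submodule.span_le]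
      intro x hx
      simp only [SetLike.mem_coe, Submodule.mem_comap, mem_degreeLE]
      exact degree_le_of_natDegree_le (Finset.le_sup (f := fun x => (φ x).natDegree) hx)
    intro x hx
    have := this hx
    simp only [Submodule.mem_comap, mem_degreeLE] at this
    exact natDegree_le_iff_degree_le.2 this
  have hall : ∀ n : ℕ, ∃ x ∈ V, (φ a).natDegree + 1 + n ≤ (φ x).natDegree := by
    intro n
    induction n with
    | zero => exact ⟨_, hinv v hv, first_step a v h⟩
    | succ n ih =>
      obtain ⟨x, hx, hd⟩ := ih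
      refine ⟨_, hinv x hx, ?_⟩
      have ha : a ≠ 0 := by
        rintro rfl
        apply h
        have := D_smul 0 0
        simp only [zero_smul] at this
        simp [br, this]
      have hx0 : x ≠ 0 := by
        rintro rfl
        simp at hd
      have := deg_br a x ha hx0 (by omega)
      omega
  obtain ⟨x, hx, hd⟩ := hall (s.sup fun x => (φ x).natDegree)
  have := hb x hx
  omega

end

end Pool.Agent.H.MP_ef54ea_al
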